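import Pool.Agent.N754.LG.Stm

/-!
Dual bases of derivations; derivatives of forms.
-/

set_option autoImplicit false

open FF Pool.Agent.W603.LV

namespace Pool.Agent.N603.LG

open Pool.Agent.W602.GT
open Pool.Agent.N754.LG

section

variable {k K : Type} [Field k] [Field K] [Algebra k K]

/-- the value of a finite combination of derivations -/
theorem der_sum {ι : Type} (s : Finset ι) (c : ι → K) (D : ι → Derivation k K K) (z : K) :
    (∑ j ∈ s, c j • D j) z = ∑ j ∈ s, c j * D j z := by
  classical
  have h := map_sum (Derivation.coeFnAddMonoidHom (R := k) (A := K) (M := K))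
    (fun j => c j • D j) s
  have h2 := congrFun h z
  rw [Finset.sum_apply] at h2
  exact h2

theorem reg_of_log {P : Place k K} {E : Derivation k K K} (h : DerLog P E) : DerReg P E := by
  intro f hf
  by_cases h0 : f = 0
  · rw [h0, map_zero]
    exact Ge.zero (P := P) (N := 0)
  · have h1 : Ge P (0 + 0) (E f / f * f) := Ge.mul (h f) hf
    rw [div_mul_cancel₀ _ h0, add_zero] at h1
    exact h1

/-- a determinant of regular functions is regular -/
theorem reg_det {P : Place k K} {w : ℕ} (M : Matrix (Fin w) (Fin w) K)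
    (h : ∀ i j, P.Reg (M i j)) : Ge P 0 M.det :=
  ge_det P M 0 (fun _ _ => 0) h (fun _ => by simp)

/-- Cramer's rule -/
theorem cram {w : ℕ} (M : Matrix (Fin w) (Fin w) K) (x y : Fin w → K)
    (h : ∀ a, y a = ∑ l, M a l * x l) (j : Fin w) : x j * M.det = (M.updateCol j y).det := by
  have h1 : M.mulVec x = y := by
    funext a
    rw [h a]
    rfl
  have h3 : M.cramer (M.mulVec x) = M.det • x := by
    rw [Matrix.cramer_eq_adjugate_mulVec, Matrix.mulVec_mulVec, Matrix.adjugate_mul,
      Matrix.smul_mulVec, Matrix.one_mulVec]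
  have h2 := congrFun h3 j
  rw [h1, Matrix.cramer_apply] at h2
  rw [h2, Pi.smul_apply, smul_eq_mul, mul_comm]

/-- regularity of a determinant with a changed column -/
theorem reg_upd {P : Place k K} {w : ℕ} (M : Matrix (Fin w) (Fin w) K)
    (h : ∀ i j, P.Reg (M i j)) (y : Fin w → K) (hy : ∀ i, P.Reg (y i)) (j : Fin w) :
    Ge P 0 (M.updateCol j y).det := by
  refine reg_det _ fun i l => ?_
  rw [Matrix.updateCol_apply]
  split_ifs
  · exact hy i
  · exact h i l

/-- the derivative of a form -/
theorem core1 {P : Place k K} {w : ℕ} {b : Fin w → K} {D E : Fin w → Derivation k K K}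
    (hD : Dual b D) (hE : ∀ a, DerReg P (E a)) (hM : ∀ a j, P.Reg (E a (b j) / b j)) {m : ℕ} {f : K}
    (hf : P.Reg (f * rho b E ^ m)) (j : Fin w) : P.Reg (D j f * rho b E ^ (2 * m + 1)) := by
  set M : Matrix (Fin w) (Fin w) K := Matrix.of fun a j => E a (b j) / b j with hMd
  have hρ : rho b E = M.det := rfl
  have hMr : ∀ a l, P.Reg (M a l) := fun a l => hM a l
  have hρr : Ge P 0 (rho b E) := reg_det M hMr
  have hpow : ∀ n : ℕ, Ge P 0 (rho b E ^ n) := by
    intro n
    have := hρr.pow n
    rwa [mul_zero] at this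
  have h1 := cram M (fun l => D l f) (fun a => E a f) (fun a => hD.2 (E a) f) j
  have h2 : D j f * rho b E ^ (2 * m + 1) =
      (M.updateCol j (rho b E ^ (2 * m) • fun a => E a f)).det := by
    rw [Matrix.det_updateCol_smul, ← h1, hρ]
    ring
  rw [h2]
  refine reg_upd M hMr _ (fun a => ?_) j
  have h3 : (rho b E ^ (2 * m) • fun a => E a f) a =
      rho b E ^ m * E a (f * rho b E ^ m) - f * rho b E ^ m * E a (rho b E ^ m) := by
    rw [Pi.smul_apply, (E a).leibniz, smul_eq_mul, smul_eq_mul, smul_eq_mul]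
    ring
  rw [h3]
  have h4 : Ge P 0 (E a (f * rho b E ^ m)) := hE a _ hf
  have h5 : Ge P 0 (E a (rho b E ^ m)) := hE a _ (hpow m)
  have h6 : Ge P (0 + 0) (rho b E ^ m * E a (f * rho b E ^ m)) := (hpow m).mul h4
  have h7 : Ge P (0 + 0) (f * rho b E ^ m * E a (rho b E ^ m)) := Ge.mul hf h5
  rw [add_zero] at h6 h7
  exact h6.sub h7

/-- the logarithmic derivative of a unit -/
theorem core2 {P : Place k K} {w : ℕ} {b : Fin w → K} {D E : Fin w → Derivation k K K}
    (hD : Dual b D) (hM : ∀ a j, P.Reg (E a (b j) / b j)) {x : K}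
    (hx : ∀ a, P.Reg (E a x / x)) (j : Fin w) : P.Reg (D j x / x * rho b E ^ 1) := by
  set M : Matrix (Fin w) (Fin w) K := Matrix.of fun a j => E a (b j) / b j with hMd
  have hρ : rho b E = M.det := rfl
  have hMr : ∀ a l, P.Reg (M a l) := fun a l => hM a l
  have h1 := cram M (fun l => D l x / x) (fun a => E a x / x) (fun a => by
    rw [hD.2 (E a) x, Finset.sum_div]
    exact Finset.sum_congr rfl fun l _ => mul_div_assoc _ _ _) j
  rw [pow_one, hρ, h1]
  exact reg_upd M hMr _ hx j

end

/-- dual bases exist -/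
theorem du : DU := by
  intro k K _ _ _ _ w b hw hb
  have ht : IsTranscendenceBasis k b := by
    refine hb.isTranscendenceBasis_of_trdeg_le_of_finite ?_
    rw [hw, Cardinal.mk_fin]
  have h : ∀ i : Fin w, ∃ D : Derivation k K K, ∀ j, D (b j) = if i = j then b j else 0 :=
    fun i => exists_der b ht _
  choose D hD using h
  refine ⟨D, hD, fun E x => ?_⟩
  have h1 : E = ∑ j, (E (b j) / b j) • D j := by
    refine der_ext b ht fun i => ?_
    rw [der_sum, Finset.sum_eq_single i]
    · rw [hD, if_pos rfl, div_mul_cancel₀ _ (hb.ne_zero i)]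
    · intro l _ hl
      rw [hD, if_neg hl, mul_zero]
    · intro hi
      exact absurd (Finset.mem_univ i) hi
  conv_lhs => rw [h1]
  exact der_sum _ _ _ _

/-- derivatives of forms, and of units -/
theorem ra2 : RA2 := by
  intro k K _ _ _ _ w b C D hD hb hC
  refine ⟨fun m f j hf => ⟨fun P hP E hE => ?_, fun P hP hCP E hE => ?_⟩,
    fun x j hx hCx => ⟨fun P hP E hE => ?_, fun P hP hCP E hE => ?_⟩⟩
  · exact core1 hD (fun a => reg_of_log (hE a)) (fun a l => hE a (b l)) (hf.1 P hP E hE) j
  · exact core1 hD hE (fun a l => ge_logder_reg (hE a) (hb l) (hC P hCP l)) (hf.2 P hP hCP E hE) j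
  · exact core2 hD (fun a l => hE a (b l)) (fun a => hE a x) j
  · exact core2 hD (fun a l => ge_logder_reg (hE a) (hb l) (hC P hCP l))
      (fun a => ge_logder_reg (hE a) hx (hCx P hCP)) j

end Pool.Agent.N603.LG
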